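import Mathlib

/-! Generic Fourier tools on a finite dimensional real inner product space:
Plancherel for `L¹ ∩ L²`, the `L²` bound for convolutions, the bilinear estimate and the
`U²` inverse theorem. -/

open MeasureTheory SchwartzMap FourierTransform
open scoped ENNReal Real ComplexConjugate

noncomputable section

set_option linter.unusedSectionVars false

namespace PoolH69PT

variable {E : Type*} [NormedAddCommGroup E] [InnerProductSpace ℝ E] [FiniteDimensional ℝ E]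
  [MeasurableSpace E] [BorelSpace E]

/-- smooth compactly supported real test function as complex Schwartz function -/
def cSchwartz (g : E → ℝ) (hg : ContDiff ℝ (⊤ : ℕ∞) g) (hs : HasCompactSupport g) : 𝓢(E, ℂ) :=
  HasCompactSupport.toSchwartzMap (f := fun x => (g x : ℂ))
    (hs.comp_left (g := fun r : ℝ => (r : ℂ)) (by simp))
    (Complex.ofRealCLM.contDiff.comp hg)

@[simp] lemma cSchwartz_apply (g : E → ℝ) (hg hs) (x : E) : cSchwartz g hg hs x = (g x : ℂ) := rfl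

/-- flip lemma for the Fourier transform -/
lemma flip_fourier (f : E → ℂ) (hf : Integrable f) (χ : E → ℂ) (hχ : Integrable χ) :
    ∫ x, f x * 𝓕 χ x = ∫ x, 𝓕 f x * χ x := by
  have := VectorFourier.integral_fourierIntegral_smul_eq_flip (L := innerₗ E)
    (μ := volume) (ν := volume) (f := f) (g := χ) Real.continuous_fourierChar
    continuous_inner hf hχ
  simp only [smul_eq_mul, flip_innerₗ] at this
  exact this.symm

lemma continuous_fourier (f : E → ℂ) (hf : Integrable f) : Continuous (𝓕 f) :=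
  VectorFourier.fourierIntegral_continuous Real.continuous_fourierChar
    (by exact continuous_inner) hf

/-- Plancherel: a.e. equality of the two Fourier transforms -/
lemma fourier_ae_eq (f : E → ℂ) (h1 : Integrable f) (h2 : MemLp f 2) :
    𝓕 f =ᵐ[volume] (𝓕 (h2.toLp f) : Lp ℂ 2 (volume : Measure E)) := by
  have hG : MemLp (𝓕 (h2.toLp f) : Lp ℂ 2 (volume : Measure E)) 2 volume := Lp.memLp _
  have hloc : LocallyIntegrable (𝓕 (h2.toLp f) : Lp ℂ 2 (volume : Measure E)) volume :=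
    hG.locallyIntegrable (by norm_num)
  have hloc' : LocallyIntegrable (𝓕 f) volume := (continuous_fourier f h1).locallyIntegrable
  apply ae_eq_of_integral_contDiff_smul_eq hloc' hloc
  intro g hg hs
  let φ := cSchwartz g hg hs
  have e1 : ∫ x, g x • 𝓕 f x = ∫ x, 𝓕 f x * φ x := by
    apply integral_congr_ae; filter_upwards with x
    simp [φ, mul_comm]
  have e2 : ∫ x, 𝓕 f x * φ x = ∫ x, f x * 𝓕 (φ : E → ℂ) x :=
    (flip_fourier f h1 φ φ.integrable).symm
  have e3 : ∫ x, f x * 𝓕 (φ : E → ℂ) x = Lp.toTemperedDistribution (h2.toLp f) (𝓕 φ) := by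
    rw [Lp.toTemperedDistribution_apply]
    apply integral_congr_ae
    filter_upwards [h2.coeFn_toLp] with x hx
    rw [hx, SchwartzMap.fourier_coe, smul_eq_mul, mul_comm]
  have e4 : Lp.toTemperedDistribution (h2.toLp f) (𝓕 φ) =
      Lp.toTemperedDistribution (𝓕 (h2.toLp f)) φ := by
    rw [← Lp.fourier_toTemperedDistribution_eq, TemperedDistribution.fourier_apply]
  rw [e1, e2, e3, e4, Lp.toTemperedDistribution_apply]
  apply integral_congr_ae; filter_upwards with x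
  simp [φ]

/-- Plancherel for `L¹ ∩ L²` functions, `eLpNorm` form -/
lemma plancherel_eLpNorm (f : E → ℂ) (h1 : Integrable f) (h2 : MemLp f 2) :
    MemLp (𝓕 f) 2 ∧ eLpNorm (𝓕 f) 2 volume = eLpNorm f 2 volume := by
  have hae := fourier_ae_eq f h1 h2
  refine ⟨(memLp_congr_ae hae).mpr (Lp.memLp _), ?_⟩
  rw [eLpNorm_congr_ae hae]
  have := Lp.norm_fourier_eq (h2.toLp f)
  rw [Lp.norm_def, Lp.norm_def, eLpNorm_congr_ae h2.coeFn_toLp] at this
  rwa [ENNReal.toReal_eq_toReal_iff' (Lp.memLp _).2.ne h2.2.ne] at this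

lemma integral_sq_eq (f : E → ℂ) (h2 : MemLp f 2) :
    ∫ x, ‖f x‖ ^ 2 = (eLpNorm f 2 volume).toReal ^ 2 := by
  have h := h2.eLpNorm_eq_integral_rpow_norm (by norm_num) (by norm_num)
  rw [h, ENNReal.toReal_ofReal (by positivity)]
  have hnn : 0 ≤ ∫ x, ‖f x‖ ^ (2 : ℝ≥0∞).toReal := by positivity
  rw [← Real.rpow_natCast, ← Real.rpow_mul hnn]
  norm_num

/-- Plancherel for `L¹ ∩ L²` functions -/
theorem plancherel (f : E → ℂ) (h1 : Integrable f) (h2 : MemLp f 2) :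
    MemLp (𝓕 f) 2 ∧ ∫ ξ, ‖𝓕 f ξ‖ ^ 2 = ∫ x, ‖f x‖ ^ 2 := by
  obtain ⟨h3, h4⟩ := plancherel_eLpNorm f h1 h2
  exact ⟨h3, by rw [integral_sq_eq _ h3, integral_sq_eq _ h2, h4]⟩

lemma memLp_two_of_bound {f : E → ℂ} (h1 : Integrable f) {M : ℝ} (hb : ∀ x, ‖f x‖ ≤ M) :
    MemLp f 2 := by
  rw [memLp_two_iff_integrable_sq_norm h1.aestronglyMeasurable]
  refine Integrable.mono' (h1.norm.const_mul M) (h1.aestronglyMeasurable.norm.pow 2) ?_
  filter_upwards with x
  rw [Real.norm_eq_abs, abs_of_nonneg (by positivity), pow_two]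
  exact mul_le_mul_of_nonneg_right (hb x) (norm_nonneg _)

lemma integrable_sq {f : E → ℂ} (h2 : MemLp f 2) : Integrable (fun x => ‖f x‖ ^ 2) :=
  (memLp_two_iff_integrable_sq_norm h2.aestronglyMeasurable).mp h2

section conv

variable {u v : E → ℂ} (hu : Integrable u) (hv : Integrable v) {M : ℝ} (hM : ∀ x, ‖v x‖ ≤ M)

include hu hv in
lemma conv_integrable : Integrable (fun s => ∫ x, u x * v (s - x)) := by
  have := hu.integrable_convolution (ContinuousLinearMap.mul ℂ ℂ) hv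
  exact this

include hu hM in
lemma conv_bound (s : E) : ‖∫ x, u x * v (s - x)‖ ≤ (∫ x, ‖u x‖) * M := by
  calc ‖∫ x, u x * v (s - x)‖ ≤ ∫ x, ‖u x * v (s - x)‖ := norm_integral_le_integral_norm _
    _ ≤ ∫ x, ‖u x‖ * M := by
        refine integral_mono_of_nonneg (by filter_upwards with x; positivity)
          (hu.norm.mul_const M) ?_
        filter_upwards with x
        rw [norm_mul]
        exact mul_le_mul_of_nonneg_left (hM _) (norm_nonneg _)
    _ = (∫ x, ‖u x‖) * M := integral_mul_const _ _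

include hu hv hM in
/-- the `L²` norm of a convolution is at most `sup |û|` times the `L²` norm -/
theorem conv_l2 {C : ℝ} (hC : ∀ ξ, ‖𝓕 u ξ‖ ≤ C) :
    MemLp (fun s => ∫ x, u x * v (s - x)) 2 ∧
    ∫ s, ‖∫ x, u x * v (s - x)‖ ^ 2 ≤ C ^ 2 * ∫ x, ‖v x‖ ^ 2 := by
  have hw := conv_integrable hu hv
  have hw2 : MemLp (fun s => ∫ x, u x * v (s - x)) 2 :=
    memLp_two_of_bound hw (conv_bound hu hM)
  refine ⟨hw2, ?_⟩
  have hv2 : MemLp v 2 := memLp_two_of_bound hv hM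
  obtain ⟨hw3, hw4⟩ := plancherel _ hw hw2
  obtain ⟨hv3, hv4⟩ := plancherel _ hv hv2
  rw [← hw4, ← hv4, ← integral_const_mul]
  refine integral_mono (integrable_sq hw3) ((integrable_sq hv3).const_mul _) ?_
  intro ξ
  have h := Real.fourier_mul_convolution_eq (R := ℂ) hu hv ξ
  have h' : 𝓕 (fun s => ∫ x, u x * v (s - x)) ξ = 𝓕 u ξ * 𝓕 v ξ := h
  show ‖𝓕 (fun s => ∫ x, u x * v (s - x)) ξ‖ ^ 2 ≤ C ^ 2 * ‖𝓕 v ξ‖ ^ 2
  rw [h', norm_mul, mul_pow]
  gcongr
  exact hC ξ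

end conv

/-- bilinear estimate -/
theorem bilin {b u v : E → ℂ} (hb : Integrable b) (hu : Integrable u) (hv : Integrable v)
    {B M C : ℝ} (hB : ∀ x, ‖b x‖ ≤ B) (hM : ∀ x, ‖v x‖ ≤ M) (hC : ∀ ξ, ‖𝓕 u ξ‖ ≤ C) :
    ‖∫ x, ∫ y, b (x + y) * u x * v y‖ ≤
      C * √(∫ x, ‖b x‖ ^ 2) * √(∫ x, ‖v x‖ ^ 2) := by
  have hC0 : 0 ≤ C := (norm_nonneg _).trans (hC 0)
  have e1 : ∀ x, ∫ y, b (x + y) * u x * v y = ∫ s, b s * (u x * v (s - x)) := by
    intro x
    rw [← integral_add_left_eq_self (fun s => b s * (u x * v (s - x))) x]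
    congr 1; ext y
    rw [add_sub_cancel_left, mul_assoc]
  have hint : Integrable (fun p : E × E => b p.1 * (u p.2 * v (p.1 - p.2)))
      (volume.prod volume) := by
    have h := hu.convolution_integrand (ContinuousLinearMap.mul ℂ ℂ) hv
    simp only [ContinuousLinearMap.mul_apply'] at h
    refine Integrable.mono' (h.norm.const_mul B) ?_ ?_
    · exact (hb.aestronglyMeasurable.comp_fst).mul h.aestronglyMeasurable
    · filter_upwards with p
      rw [norm_mul]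
      exact mul_le_mul_of_nonneg_right (hB _) (norm_nonneg _)
  have e2 : ∫ x, ∫ y, b (x + y) * u x * v y = ∫ s, b s * ∫ x, u x * v (s - x) := by
    simp_rw [e1]
    rw [integral_integral_swap (f := fun x s => b s * (u x * v (s - x)))]
    · congr 1; ext s
      rw [integral_const_mul]
    · exact hint.swap
  obtain ⟨hw2, hw⟩ := conv_l2 hu hv hM hC
  have hb2 : MemLp b 2 := memLp_two_of_bound hb hB
  rw [e2]
  calc ‖∫ s, b s * ∫ x, u x * v (s - x)‖ ≤ ∫ s, ‖b s * ∫ x, u x * v (s - x)‖ :=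
        norm_integral_le_integral_norm _
    _ = ∫ s, ‖b s‖ * ‖∫ x, u x * v (s - x)‖ := by simp_rw [norm_mul]
    _ ≤ √(∫ x, ‖b x‖ ^ 2) * √(∫ s, ‖∫ x, u x * v (s - x)‖ ^ 2) := by
        have := integral_mul_le_Lp_mul_Lq_of_nonneg (μ := (volume : Measure E))
          (f := fun s => ‖b s‖) (g := fun s => ‖∫ x, u x * v (s - x)‖) Real.HolderConjugate.two_two
          (by filter_upwards with s; positivity) (by filter_upwards with s; positivity)
          (by simpa using hb2.norm) (by simpa using hw2.norm)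
        simpa [Real.sqrt_eq_rpow] using this
    _ ≤ √(∫ x, ‖b x‖ ^ 2) * √(C ^ 2 * ∫ x, ‖v x‖ ^ 2) := by gcongr
    _ = C * √(∫ x, ‖b x‖ ^ 2) * √(∫ x, ‖v x‖ ^ 2) := by
        rw [Real.sqrt_mul (by positivity), Real.sqrt_sq hC0]; ring

/-- the `L²` norm of the autocorrelation is at most `sup |f̂|` times the `L²` norm -/
theorem autocorr_l2 {f : E → ℂ} (hf : Integrable f) {M : ℝ} (hM : ∀ x, ‖f x‖ ≤ M)
    {C : ℝ} (hC : ∀ ξ, ‖𝓕 f ξ‖ ≤ C) :
    ∫ s, ‖∫ x, f x * conj (f (x + s))‖ ^ 2 ≤ C ^ 2 * ∫ x, ‖f x‖ ^ 2 := by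
  let v : E → ℂ := fun y => conj (f (-y))
  have hv : Integrable v := by
    have h1 : Integrable (fun y => f (-y)) := hf.comp_neg
    have h2 := (Complex.conjLIE.toContinuousLinearEquiv.toContinuousLinearMap.integrable_comp h1)
    simpa [v] using h2
  have hvM : ∀ x, ‖v x‖ ≤ M := fun x => by simpa [v] using hM (-x)
  obtain ⟨-, h⟩ := conv_l2 hf hv hvM hC
  have e1 : ∫ s, ‖∫ x, f x * conj (f (x + s))‖ ^ 2 = ∫ s, ‖∫ x, f x * v (s - x)‖ ^ 2 := by
    rw [← integral_neg_eq_self (fun s => ‖∫ x, f x * v (s - x)‖ ^ 2)]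
    congr 1; ext s
    congr 2
    refine integral_congr_ae ?_
    filter_upwards with x
    simp only [v]
    congr 3
    abel
  have e2 : ∫ x, ‖v x‖ ^ 2 = ∫ x, ‖f x‖ ^ 2 := by
    rw [← integral_neg_eq_self (fun x => ‖f x‖ ^ 2)]
    congr 1; ext x
    simp [v]
  rw [e1]; rw [e2] at h; exact h

/-- `U²` inverse theorem -/
theorem u2_inverse {f : E → ℂ} (hf : Integrable f) {M : ℝ} (hM : ∀ x, ‖f x‖ ≤ M)
    {δ V : ℝ} (hδ : 0 < δ) (hV : 0 < V) (hfV : ∫ x, ‖f x‖ ^ 2 ≤ V)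
    (h : δ ≤ ∫ s, ‖∫ x, f x * conj (f (x + s))‖ ^ 2) :
    ∃ ξ, δ / (2 * V) ≤ ‖∫ x, 𝐞 (-(inner ℝ x ξ)) • f x‖ ^ 2 := by
  by_contra hcon
  push Not at hcon
  have hC : ∀ ξ, ‖𝓕 f ξ‖ ≤ √(δ / (2 * V)) := by
    intro ξ
    have := hcon ξ
    rw [← Real.sqrt_sq (norm_nonneg (𝓕 f ξ))]
    exact Real.sqrt_le_sqrt this.le
  have := autocorr_l2 hf hM hC
  rw [Real.sq_sqrt (by positivity)] at this
  have h2 : δ / (2 * V) * ∫ x, ‖f x‖ ^ 2 ≤ δ / (2 * V) * V := by gcongr
  have h3 : δ / (2 * V) * V = δ / 2 := by field_simp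
  linarith

end PoolH69PT
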